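import Pool.Agent.Helper97_WHT.Stmt
import Pool.Agent.Helper6_RAM.Sing

/-!
# Row BSL of the squad WHT: Bessel's inequality for the Whittaker coefficients
-/

set_option autoImplicit false

open scoped BigOperators

namespace Pool.Agent.WHT.H94

open Pool.Agent.DEN Pool.Agent.TMP Pool.Agent.WHT

section
variable {G X : Type} [Group G] [MulAction G X] {Λ : Subgroup G}

/-- Bessel's inequality for an orthonormal family and a function, all with finite support. -/
theorem bessel_PV (hst : ∀ x : X, Finite (MulAction.stabilizer Λ x)) (n : ℕ) (f : Fin n → X → ℂ)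
    (hf : ∀ j, H6.PV Λ (f j))
    (horth : ∀ i j, H6.pet Λ (f i) (f j) = if i = j then 1 else 0) (g : X → ℂ) (hg : H6.PV Λ g) :
    ∑ j, ‖H6.pet Λ (f j) g‖ ^ 2 ≤ H6.nsq Λ g := by
  classical
  have hSfin : ({o : MulAction.orbitRel.Quotient Λ X | g o.out ≠ 0} ∪
      ⋃ j, {o : MulAction.orbitRel.Quotient Λ X | f j o.out ≠ 0}).Finite :=
    hg.2.union (Set.finite_iUnion fun j => (hf j).2)
  rw [H6.nsq_eq hSfin.toFinset (fun o ho => by
    rw [Set.Finite.mem_toFinset]
    exact Or.inl ho)]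
  refine H6.bessel hst n f hSfin.toFinset (fun j o ho => ?_) horth g
  rw [Set.Finite.mem_toFinset]
  exact Or.inr (Set.mem_iUnion.mpr ⟨j, ho⟩)

end

theorem bsl (unf : UnfStmt) : BslStmt := by
  intro r C hC K _ _ N hN χ hχ m hm n f hf
  obtain ⟨-, P, hP, hPv, hPf, hPa⟩ := unf r C hC K N hN χ hχ m hm
  have hN0 : N ≠ 0 := by
    rintro rfl
    simp at hN
  have hdom : IsDom C m := hm.1
  have hPV : ∀ j, H6.PV (cong C K 1 N) (f j) := fun j => H6.cusp_PV hC N hN0 (f j) (hf.1 j)
  have hst : ∀ x : XX C K, Finite (MulAction.stabilizer (cong C K 1 N) x) := fun x =>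
    (H22.hFin r C hC K).2.1 N x
  have h1 : H6.pet (cong C K 1 N) P P = vol hC N m := by
    rw [hPf P hP.1, hPa P 1 (fun u hu => by rw [hPv m hdom u hu, if_pos rfl, one_mul]), one_mul]
  have h2 : H6.nsq (cong C K 1 N) P = vol hC N m := by
    have h := H6.pet_self hP
    rw [h1] at h
    exact_mod_cast h.symm
  rw [← h2]
  refine le_trans (le_of_eq (Finset.sum_congr rfl fun j _ => ?_))
    (bessel_PV hst n f hPV hf.2 P hP)
  rw [← hPf (f j) (hf.1 j).1, ← H6.pet_conj hP, RCLike.norm_conj]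

end Pool.Agent.WHT.H94
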